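import Pool.Agent.C4F.StmtsM

/-!
# Squad C4F, row ITR: iteration of a generator by a loop
-/

set_option autoImplicit false

namespace Pool.Agent.C4F.H91

open Pool.Agent.C4F Turing Function
open Pool.Agent.Helper53_CookLevin Pool.Agent.Helper32_Poly
open Pool.Agent.Helper53_Chan (Test)

/-- stacks: the word `z` reversed in stack 1 -/
def Sk (z : List Lt) : ℕ → List Lt := update (fun _ => []) 1 z.reverse

/-- evaluate the test written by the program `p` on stack 2 -/
def tstP (p : Pr Lt) : Pr Lt :=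
  .seq p (.seq (.pop 2 (fun _ o => o)) (.seq
    (.ite (fun r => r.isNone) (.push 3 (fun _ => default)) Prog.skip)
    (.seq (clearP 2) (.pop 3 (fun _ o => o)))))

/-- body of the loop -/
def bodP (p p' : Pr Lt) : Pr Lt :=
  .seq p (.seq (clearP 1) (.seq (moveP 2 0) (.seq (moveP 0 1) (tstP p'))))

theorem tst_run {p : Pr Lt} {τ : List Lt} {z : List Lt} {r : Option Lt} {r' : Option Lt} {t : ℕ}
    (h : Prog.Run p r (Sk z) r' (update (Sk z) 2 (τ.reverse ++ Sk z 2)) t) :
    ∃ t', t' ≤ t + 3 * τ.length + 7 ∧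
      Prog.Run (tstP p) r (Sk z) (if τ = [] then some default else none) (Sk z) t' := by
  have e0 : Sk z 2 = [] := by simp [Sk]
  rw [e0, List.append_nil] at h
  by_cases hτ : τ = []
  · subst hτ
    rw [if_pos rfl]
    have h1 := Prog.Run.pop (Γ := fun _ : ℕ => Lt) 2 (fun (_ : Option Lt) o => o) r'
      (update (Sk z) 2 ([] : List Lt).reverse)
    have e1 : update (Sk z) 2 ([] : List Lt).reverse = Sk z := by
      funext k
      by_cases hk : k = 2
      · subst hk; simp [e0]
      · simp [hk]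
    rw [e1] at h1 h
    rw [e0] at h1
    have e2 : update (Sk z) 2 ([] : List Lt).tail = Sk z := e1
    rw [e2] at h1
    have h2 : Prog.Run (.ite (fun r : Option Lt => r.isNone) (.push 3 (fun _ => default))
        Prog.skip : Pr Lt) none (Sk z) none (update (Sk z) 3 [default]) (1 + 1) := by
      have := Prog.Run.push (Γ := fun _ : ℕ => Lt) 3 (fun (_ : Option Lt) => default) none (Sk z)
      have e3 : Sk z 3 = [] := by simp [Sk]
      rw [e3] at this
      exact Prog.Run.ite_true rfl this
    obtain ⟨t3, ht3, h3⟩ := clearP_run (C := Lt) 2 (update (Sk z) 3 [default]) none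
    have e4 : update (update (Sk z) 3 [default]) 2 [] = update (Sk z) 3 [default] := by
      funext k
      by_cases hk : k = 2
      · subst hk; simp [e0]
      · simp [hk]
    have e5 : update (Sk z) 3 [default] 2 = [] := by simp [e0]
    rw [e4] at h3
    rw [e5] at ht3
    have h4 := Prog.Run.pop (Γ := fun _ : ℕ => Lt) 3 (fun (_ : Option Lt) o => o) none
      (update (Sk z) 3 [default])
    have e6 : update (update (Sk z) 3 [default]) 3
        (update (Sk z) 3 [(default : Lt)] 3).tail = Sk z := by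
      funext k
      by_cases hk : k = 3
      · subst hk; simp [Sk]
      · simp [hk]
    rw [e6] at h4
    have e7 : (update (Sk z) 3 [(default : Lt)] 3).head? = some default := by simp
    rw [e7] at h4
    refine ⟨_, ?_, Prog.Run.seq h (Prog.Run.seq h1 (Prog.Run.seq h2 (Prog.Run.seq h3 h4)))⟩
    simp only [List.length_nil] at ht3 ⊢
    omega
  · rw [if_neg hτ]
    have hτ' : τ.reverse ≠ [] := by simpa using hτ
    obtain ⟨a, l, hal⟩ := List.exists_cons_of_ne_nil hτ'
    have hlen : l.length + 1 = τ.length := by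
      have := congrArg List.length hal
      simpa using this.symm
    rw [hal] at h
    have h1 := Prog.Run.pop (Γ := fun _ : ℕ => Lt) 2 (fun (_ : Option Lt) o => o) r'
      (update (Sk z) 2 (a :: l))
    rw [update_self, update_idem, List.tail_cons, List.head?_cons] at h1
    have h2 : Prog.Run (.ite (fun r : Option Lt => r.isNone) (.push 3 (fun _ => default))
        Prog.skip : Pr Lt) (some a) (update (Sk z) 2 l) (some a) (update (Sk z) 2 l) (1 + 1) :=
      Prog.Run.ite_false rfl (Prog.skip_run _ _)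
    obtain ⟨t3, ht3, h3⟩ := clearP_run (C := Lt) 2 (update (Sk z) 2 l) (some a)
    have e4 : update (update (Sk z) 2 l) 2 [] = Sk z := by
      funext k
      by_cases hk : k = 2
      · subst hk; simp [e0]
      · simp [hk]
    rw [e4] at h3
    rw [update_self] at ht3
    have h4 := Prog.Run.pop (Γ := fun _ : ℕ => Lt) 3 (fun (_ : Option Lt) o => o) none (Sk z)
    have e5 : Sk z 3 = [] := by simp [Sk]
    have e6 : update (Sk z) 3 ([] : List Lt) = Sk z := by
      rw [← e5, update_eq_self]
    rw [e5, List.tail_nil, e6, List.head?_nil] at h4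
    refine ⟨_, ?_, Prog.Run.seq h (Prog.Run.seq h1 (Prog.Run.seq h2 (Prog.Run.seq h3 h4)))⟩
    omega

theorem bod_run {p p' : Pr Lt} {y z τ : List Lt} {r r1 : Option Lt} {t t' : ℕ}
    (h : Prog.Run p r (Sk z) r1 (update (Sk z) 2 (y.reverse ++ Sk z 2)) t)
    (h' : ∃ r2, Prog.Run p' none (Sk y) r2 (update (Sk y) 2 (τ.reverse ++ Sk y 2)) t') :
    ∃ u, u ≤ t + t' + 3 * z.length + 6 * y.length + 3 * τ.length + 13 ∧
      Prog.Run (bodP p p') r (Sk z) (if τ = [] then some default else none) (Sk y) u := by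
  have e0 : Sk z 2 = [] := by simp [Sk]
  rw [e0, List.append_nil] at h
  obtain ⟨t1, ht1, h1⟩ := clearP_run (C := Lt) 1 (update (Sk z) 2 y.reverse) r1
  have e1 : update (update (Sk z) 2 y.reverse) 1 [] = update (fun _ => []) 2 y.reverse := by
    funext k
    rcases k with _ | _ | _ | k <;> simp [Sk, Function.update_apply]
  have e1' : (update (Sk z) 2 y.reverse 1).length = z.length := by simp [Sk]
  rw [e1] at h1
  rw [e1'] at ht1
  obtain ⟨t2, ht2, h2⟩ := moveP_run 2 0 (by omega) (update (fun _ => []) 2 y.reverse)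
    (none : Option Lt)
  have e2 : update (update (update (fun _ : ℕ => ([] : List Lt)) 2 y.reverse) 2 []) 0
      ((update (fun _ => []) 2 y.reverse 2).reverse ++ update (fun _ => []) 2 y.reverse 0) =
      update (fun _ => []) 0 y := by
    funext k
    rcases k with _ | _ | _ | k <;> simp [Function.update_apply]
  rw [e2] at h2
  obtain ⟨t3, ht3, h3⟩ := moveP_run 0 1 (by omega) (update (fun _ => []) 0 y)
    (none : Option Lt)
  have e3 : update (update (update (fun _ : ℕ => ([] : List Lt)) 0 y) 0 []) 1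
      ((update (fun _ => []) 0 y 0).reverse ++ update (fun _ => []) 0 y 1) = Sk y := by
    funext k
    rcases k with _ | _ | _ | k <;> simp [Sk, Function.update_apply]
  rw [e3] at h3
  obtain ⟨r2, h4⟩ := h'
  obtain ⟨t5, ht5, h5⟩ := tst_run h4
  refine ⟨_, ?_, Prog.Run.seq h (Prog.Run.seq h1 (Prog.Run.seq h2 (Prog.Run.seq h3 h5)))⟩
  simp only [update_self, List.length_reverse] at ht2 ht3
  omega

theorem loop_run (p : Pr Lt) (z : ℕ → List Lt) (J B : ℕ)
    (hb : ∀ j < J, ∃ t, t ≤ B ∧ Prog.Run p (some default) (Sk (z j))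
      (if j + 1 < J then some default else none) (Sk (z (j + 1))) t) :
    ∀ d j, j + d = J → ∃ t, t ≤ d * (B + 1) + 1 ∧
      Prog.Run (.loop (fun r : Option Lt => r.isSome) p : Pr Lt)
        (if j < J then some default else none) (Sk (z j)) none (Sk (z J)) t := by
  intro d
  induction d with
  | zero =>
    intro j hj
    have : j = J := by omega
    subst this
    refine ⟨1, by omega, ?_⟩
    rw [if_neg (lt_irrefl _)]
    exact Prog.Run.loop_false _ rfl
  | succ d ih =>
    intro j hj
    obtain ⟨t1, ht1, h1⟩ := hb j (by omega)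
    obtain ⟨t2, ht2, h2⟩ := ih (j + 1) (by omega)
    rw [if_pos (show j < J by omega)]
    refine ⟨1 + t1 + t2, ?_, Prog.Run.loop_true rfl h1 h2⟩
    have : (d + 1) * (B + 1) = d * (B + 1) + (B + 1) := by ring
    omega

theorem itr : ItrStmt := by
  classical
  intro F T hF hT
  obtain ⟨τ, hτ, hτT⟩ := hT
  obtain ⟨⟨bF, hbF⟩, qF, hqF⟩ := hF.good
  obtain ⟨⟨bT, hbT⟩, qT, hqT⟩ := hτ.good
  obtain ⟨pF, hpF⟩ := hqF (fun _ => 1) 2 4 (by simp) (by omega) (by simp)
  obtain ⟨pT, hpT⟩ := hqT (fun _ => 1) 2 4 (by simp) (by omega) (by simp)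
  let P : Pr Lt := .seq (moveP 0 1) (.seq (tstP pT)
    (.seq (.loop (fun r : Option Lt => r.isSome) (bodP pF pT)) (moveP 1 0)))
  obtain ⟨N, hN⟩ := exists_uses P
  have hN1 : Uses (N + 3) P := Uses.mono (by omega) P hN
  let M : TM2ComputableAux Lt Lt :=
    ⟨(restrict (N + 3) P).machine none (0 : Fin (N + 3)) 0, Equiv.refl Lt, Equiv.refl Lt⟩
  refine ⟨M, qF + 2 * qT + 6 * bT + 20 * Polynomial.X + 50, ?_⟩
  intro z J S h1 h2 h3
  -- sizes
  have hsz : ∀ w : List Lt, size ![w] = w.length := fun w => by simp [size]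
  have hsub : ∀ (q : Polynomial ℕ) {a b : ℕ}, a ≤ b → q.eval a ≤ q.eval b :=
    fun q a b h => poly_eval_mono q h
  -- the test
  have htst : ∀ j ≤ J, ∀ r, ∃ r' t, t ≤ qT.eval S ∧
      Prog.Run pT r (Sk (z j)) r' (update (Sk (z j)) 2 ((τ ![z j]).reverse ++ Sk (z j) 2)) t := by
    intro j hj r
    obtain ⟨r', t, ht, hr⟩ := hpT ![z j] (Sk (z j)) r (by intro i; fin_cases i; simp [Sk])
      (by intro k hk; unfold Sk; rw [update_of_ne (by omega)])
    rw [hsz] at ht
    exact ⟨r', t, ht.trans (hsub qT (h3 j hj)), hr⟩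
  have hτl : ∀ j ≤ J, (τ ![z j]).length ≤ bT.eval S := by
    intro j hj
    have := hbT ![z j]
    rw [hsz] at this
    exact this.trans (hsub bT (h3 j hj))
  have hτe : ∀ j ≤ J, (τ ![z j] = [] ↔ j < J) := by
    intro j hj
    rw [hτT]
    show T (z j) ↔ j < J
    constructor
    · intro h
      rcases lt_or_eq_of_le hj with h' | h'
      · exact h'
      · subst h'
        exact absurd h h2
    · intro h
      exact (h1 j h).1
  have hif : ∀ j ≤ J, (if τ ![z j] = [] then some (default : Lt) else none) =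
      if j < J then some default else none := by
    intro j hj
    by_cases h : j < J
    · rw [if_pos h, if_pos ((hτe j hj).2 h)]
    · rw [if_neg h, if_neg (fun h' => h ((hτe j hj).1 h'))]
  -- body
  have hbod : ∀ j < J, ∃ t, t ≤ qF.eval S + qT.eval S + 9 * S + 3 * bT.eval S + 13 ∧
      Prog.Run (bodP pF pT) (some default) (Sk (z j))
        (if j + 1 < J then some default else none) (Sk (z (j + 1))) t := by
    intro j hj
    obtain ⟨r', t, ht, hr⟩ := hpF ![z j] (Sk (z j)) (some default)
      (by intro i; fin_cases i; simp [Sk])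
      (by intro k hk; unfold Sk; rw [update_of_ne (by omega)])
    rw [hsz] at ht
    have hr' : Prog.Run pF (some default) (Sk (z j)) r'
        (update (Sk (z j)) 2 ((z (j + 1)).reverse ++ Sk (z j) 2)) t := by
      rw [← (h1 j hj).2]
      exact hr
    obtain ⟨r2, t2, ht2, hr2⟩ := htst (j + 1) hj none
    obtain ⟨u, hu, hR⟩ := bod_run hr' ⟨r2, hr2⟩
    rw [hif (j + 1) hj] at hR
    refine ⟨u, ?_, hR⟩
    have a1 := h3 j hj.le
    have a2 := h3 (j + 1) hj
    have a3 := hτl (j + 1) hj
    have a4 := ht.trans (hsub qF a1)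
    omega
  obtain ⟨t1, ht1, hr1⟩ := moveP_run 0 1 (by omega) (update (fun _ => []) 0 (z 0))
    (none : Option Lt)
  have e1 : update (update (update (fun _ : ℕ => ([] : List Lt)) 0 (z 0)) 0 []) 1
      ((update (fun _ => []) 0 (z 0) 0).reverse ++ update (fun _ => []) 0 (z 0) 1) =
      Sk (z 0) := by
    funext k
    rcases k with _ | _ | k <;> simp [Sk, Function.update_apply]
  rw [e1] at hr1
  obtain ⟨r2, t2, ht2, hr2⟩ := htst 0 (Nat.zero_le _) none
  obtain ⟨t3, ht3, hr3⟩ := tst_run hr2
  rw [hif 0 (Nat.zero_le _)] at hr3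
  obtain ⟨t4, ht4, hr4⟩ := loop_run (bodP pF pT) z J _ hbod J 0 (by omega)
  obtain ⟨t5, ht5, hr5⟩ := moveP_run 1 0 (by omega) (Sk (z J)) (none : Option Lt)
  have e5 : update (update (Sk (z J)) 1 []) 0 ((Sk (z J) 1).reverse ++ Sk (z J) 0) =
      update (fun _ => []) 0 (z J) := by
    funext k
    rcases k with _ | _ | k <;> simp [Sk, Function.update_apply]
  rw [e5] at hr5
  have hR : Prog.Run P none (update (fun _ => []) 0 (z 0)) none (update (fun _ => []) 0 (z J))
      (t1 + (t3 + (t4 + t5))) := Prog.Run.seq hr1 (Prog.Run.seq hr3 (Prog.Run.seq hr4 hr5))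
  have hR' := restrict_run (N + 3) hR hN1
  rw [update_val (N + 3) _ 0 (by omega), update_val (N + 3) _ 0 (by omega)] at hR'
  have hfin : t1 + (t3 + (t4 + t5)) + 1 ≤
      (J + 1) * (qF + 2 * qT + 6 * bT + 20 * Polynomial.X + 50 : Polynomial ℕ).eval S := by
    have a1 := h3 0 (Nat.zero_le _)
    have a2 := h3 J le_rfl
    have a3 := hτl 0 (Nat.zero_le _)
    simp only [Polynomial.eval_add, Polynomial.eval_mul, Polynomial.eval_X,
      Polynomial.eval_ofNat]
    have l1 : (update (fun _ : ℕ => ([] : List Lt)) 0 (z 0) 0).length = (z 0).length := by simp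
    have l2 : (Sk (z J) 1).length = (z J).length := by simp [Sk]
    rw [l1] at ht1
    rw [l2] at ht5
    have key : J * (qF.eval S + qT.eval S + 9 * S + 3 * bT.eval S + 13 + 1) ≤
        J * (qF.eval S + 2 * qT.eval S + 6 * bT.eval S + 20 * S + 50) :=
      Nat.mul_le_mul_left _ (by omega)
    have key2 : (J + 1) * (qF.eval S + 2 * qT.eval S + 6 * bT.eval S + 20 * S + 50) =
        J * (qF.eval S + 2 * qT.eval S + 6 * bT.eval S + 20 * S + 50) +
        (qF.eval S + 2 * qT.eval S + 6 * bT.eval S + 20 * S + 50) := by ring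
    omega
  have hout : TM2OutputsInTime M.tm (z 0) (some (z J)) (t1 + (t3 + (t4 + t5)) + 1) :=
    Prog.machine_outputs none (0 : Fin (N + 3)) 0 (restrict (N + 3) P) ⟨_, le_rfl, hR'⟩
  have i1 : (z 0).map M.inputAlphabet.invFun = z 0 := List.map_id _
  have i2 : (z J).map M.outputAlphabet.invFun = z J := List.map_id _
  show Nonempty (TM2OutputsInTime M.tm ((z 0).map M.inputAlphabet.invFun)
    (some ((z J).map M.outputAlphabet.invFun)) _)
  rw [i1, i2]
  exact ⟨⟨hout.toEvalsTo, hout.steps_le_m.trans hfin⟩⟩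

end Pool.Agent.C4F.H91
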