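import Pool.Agent.Helper65_C4F.RR

/-!
# Squad C4F, row CLN: variables of a line
-/

set_option autoImplicit false

namespace Pool.Agent.C4F.H91

open Pool.Agent.C4F Pool.Agent.C4F.H65

/-- at most `h` points of a block of `h` columns are on a line -/
theorem line_card {q h a b x0 : ℕ} (P : Finset ℕ)
    (hP : ∀ p ∈ P, p / q < h ∧ p % q = (a * (x0 + p / q) + b) % q) : P.card ≤ h := by
  rw [← Finset.card_range h]
  refine Finset.card_le_card_of_injOn (fun p => p / q) ?_ ?_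
  · intro p hp
    exact Finset.mem_coe.2 (Finset.mem_range.2 (hP p (Finset.mem_coe.1 hp)).1)
  · intro p hp p' hp' he
    have h1 := (hP p (Finset.mem_coe.1 hp)).2
    have h2 := (hP p' (Finset.mem_coe.1 hp')).2
    have he' : p / q = p' / q := he
    rw [he', ← h2] at h1
    rw [← Nat.div_add_mod p q, ← Nat.div_add_mod p' q, he', h1]

/-- one half of the estimate -/
theorem half_card (D : Dat) (hk : 0 < D.kp) (X h : ℕ) (P R B : Finset ℕ) (hP : P.card ≤ h)
    (hR : R.card ≤ h) (e : ℕ → ℕ → ℕ) (C : ℕ → ℕ → ℕ → Finset ℕ)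
    (hC : ∀ p r p', (C p r p').card ≤ e p p' / D.kp + 1)
    (he : ∀ p, ∑ p' ∈ Finset.range D.kp, e p p' ≤ X)
    (hB : ∀ s ∈ B, ∃ p ∈ P, ∃ r ∈ R, ∃ p' < D.kp, s ∈ C p r p') :
    B.card ≤ h * (h * (X / D.kp + D.kp)) := by
  classical
  have h3 : B ⊆ P.biUnion fun p => R.biUnion fun r => (Finset.range D.kp).biUnion fun p' =>
        C p r p' := by
    intro s hs
    obtain ⟨p, hp, r, hr, p', hp', hs'⟩ := hB s hs
    rw [Finset.mem_biUnion]
    refine ⟨p, hp, ?_⟩
    rw [Finset.mem_biUnion]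
    refine ⟨r, hr, ?_⟩
    rw [Finset.mem_biUnion]
    exact ⟨p', Finset.mem_range.2 hp', hs'⟩
  have h4 : ∀ p r, ((Finset.range D.kp).biUnion fun p' => C p r p').card ≤ X / D.kp + D.kp := by
    intro p r
    refine le_trans Finset.card_biUnion_le (le_trans (Finset.sum_le_sum fun p' _ => hC p r p') ?_)
    rw [Finset.sum_add_distrib, Finset.sum_const, Finset.card_range, smul_eq_mul, mul_one]
    refine Nat.add_le_add_right ?_ _
    rw [Nat.le_div_iff_mul_le hk, Finset.sum_mul]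
    exact le_trans (Finset.sum_le_sum fun p' _ => Nat.div_mul_le_self _ _) (he p)
  refine le_trans (Finset.card_le_card h3) (le_trans Finset.card_biUnion_le ?_)
  calc ∑ p ∈ P, (R.biUnion fun r => (Finset.range D.kp).biUnion fun p' => C p r p').card
      ≤ ∑ p ∈ P, h * (X / D.kp + D.kp) := by
        refine Finset.sum_le_sum fun p _ => le_trans Finset.card_biUnion_le ?_
        refine le_trans (Finset.sum_le_sum fun r _ => h4 p r) ?_
        rw [Finset.sum_const, smul_eq_mul]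
        exact Nat.mul_le_mul_right _ hR
    _ ≤ h * (h * (X / D.kp + D.kp)) := by
        rw [Finset.sum_const, smul_eq_mul]
        exact Nat.mul_le_mul_right _ hP

theorem cln (hr : RrStmt) (hs : SrcStmt) : ClnStmt := by
  intro D hD a b
  have hk := kp_pos hD
  have hq : 0 < D.q := hD.prime.pos
  have h3q := hD.three
  obtain ⟨X, hX⟩ : ∃ X, X = 3 * (D.m / D.kp + 1) := ⟨_, rfl⟩
  obtain ⟨A, hA, hA'⟩ := cn_set (D.VL a b) D.n
  obtain ⟨B, hB, hB'⟩ := cn_set (fun s => ∃ t < 3 * D.m, D.Lk s t ∧ D.OnR a b (D.rt s t) ∧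
    D.OnP a b (D.grp s)) (3 * D.m)
  obtain ⟨B2, hB2, hB2'⟩ := cn_set (fun s => ∃ t < 3 * D.m, D.Lk s t ∧ D.OnR a b (D.rt s t) ∧
    D.OnP a b (D.grp t)) (3 * D.m)
  obtain ⟨P, hP, hP'⟩ := cn_set (fun p => D.OnP a b p) D.kp
  obtain ⟨R, hR, hR'⟩ := cn_set (fun r => D.OnR a b r) D.kp
  have hlt : ∀ p < D.kp, p / D.q < D.h := by
    intro p hp
    rw [Nat.div_lt_iff_lt_mul hq]
    exact hp
  have hPc : P.card ≤ D.h := by
    refine line_card (q := D.q) (a := a) (b := b) (x0 := 0) P fun p hp => ?_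
    obtain ⟨h1, h2⟩ := (hP' p).1 hp
    refine ⟨hlt p h1, ?_⟩
    have h3 : p % D.q % D.q = (a * (p / D.q) + b) % D.q := h2
    rw [Nat.mod_mod] at h3
    rw [zero_add]
    exact h3
  have hRc : R.card ≤ D.h := by
    refine line_card (q := D.q) (a := a) (b := b) (x0 := D.h) R fun r hr => ?_
    obtain ⟨h1, h2⟩ := (hR' r).1 hr
    refine ⟨hlt r h1, ?_⟩
    have h3 : r % D.q % D.q = (a * (D.h + r / D.q) + b) % D.q := h2
    rw [Nat.mod_mod] at h3
    exact h3
  choose C hC hC' using fun p p' r : ℕ => cn_set (fun s => ∃ t < 3 * D.m, D.Lk s t ∧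
    D.grp s = p ∧ D.grp t = p' ∧ D.rt s t = r) (3 * D.m)
  have hc : ∀ p p' r, (C p p' r).card ≤ cn (D.Src p p') (3 * D.m) / D.kp + 1 := fun p p' r => by
    rw [hC p p' r]
    exact hr D hD p p' r
  have hrt : ∀ s t, D.rt s t < D.kp := fun s t => Nat.mod_lt _ hk
  have hg : ∀ s, D.grp s < D.kp := fun s => Nat.mod_lt _ hk
  have b1 : B.card ≤ D.h * (D.h * (X / D.kp + D.kp)) := by
    refine half_card D hk X D.h P R B hPc hRc (fun p p' => cn (D.Src p p') (3 * D.m))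
      (fun p r p' => C p p' r) (fun p r p' => hc p p' r) ?_ ?_
    · intro p
      rw [hX]
      exact (hs D hD).2.1 p
    · intro s hs1
      obtain ⟨hs1, t, ht, hl, hor, hop⟩ := (hB' s).1 hs1
      exact ⟨D.grp s, (hP' _).2 ⟨hg s, hop⟩, D.rt s t, (hR' _).2 ⟨hrt s t, hor⟩, D.grp t, hg t,
        (hC' _ _ _ s).2 ⟨hs1, t, ht, hl, rfl, rfl, rfl⟩⟩
  have b2 : B2.card ≤ D.h * (D.h * (X / D.kp + D.kp)) := by
    refine half_card D hk X D.h P R B2 hPc hRc (fun p' p => cn (D.Src p p') (3 * D.m))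
      (fun p' r p => C p p' r) (fun p' r p => hc p p' r) ?_ ?_
    · intro p'
      rw [hX]
      exact (hs D hD).2.2.1 p'
    · intro s hs1
      obtain ⟨hs1, t, ht, hl, hor, hop⟩ := (hB2' s).1 hs1
      exact ⟨D.grp t, (hP' _).2 ⟨hg t, hop⟩, D.rt s t, (hR' _).2 ⟨hrt s t, hor⟩, D.grp s, hg s,
        (hC' _ _ _ s).2 ⟨hs1, t, ht, hl, rfl, rfl, rfl⟩⟩
  have h1 : A.card ≤ (B ∪ B2).card := by
    refine le_trans (Finset.card_le_card ?_) (Finset.card_image_le (f := D.vr))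
    intro v hv
    obtain ⟨-, s, hs1, t, ht, hl, hvr, hor, hop⟩ := (hA' v).1 hv
    rw [Finset.mem_image]
    refine ⟨s, ?_, hvr⟩
    rw [Finset.mem_union]
    rcases hop with hop | hop
    · exact Or.inl ((hB' s).2 ⟨hs1, t, ht, hl, hor, hop⟩)
    · exact Or.inr ((hB2' s).2 ⟨hs1, t, ht, hl, hor, hop⟩)
  have h2 : (B ∪ B2).card ≤ B.card + B2.card := Finset.card_union_le _ _
  have h5 : 2 * D.h ≤ D.q := by unfold Dat.h; omega
  have h6 : D.h * (D.h * (X / D.kp + D.kp)) + D.h * (D.h * (X / D.kp + D.kp)) ≤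
      X + D.kp ^ 2 := by
    calc D.h * (D.h * (X / D.kp + D.kp)) + D.h * (D.h * (X / D.kp + D.kp))
        = (D.h * (2 * D.h)) * (X / D.kp + D.kp) := by ring
      _ ≤ (D.h * D.q) * (X / D.kp + D.kp) :=
          Nat.mul_le_mul_right _ (Nat.mul_le_mul_left _ h5)
      _ = X / D.kp * D.kp + D.kp ^ 2 := by
          have e : D.h * D.q = D.kp := rfl
          rw [e]; ring
      _ ≤ X + D.kp ^ 2 := Nat.add_le_add_right (Nat.div_mul_le_self _ _) _
  have h7 : D.W = X + D.kp ^ 2 := by rw [hX]; rfl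
  rw [← hA, h7]
  omega

end Pool.Agent.C4F.H91
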