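import Pool.Agent.Helper91_C4F.Asm0
import Pool.Agent.Helper91_C4F.CLN

/-!
# The final theorem of the squad C4F
-/

set_option autoImplicit false

namespace Pool.Agent.C4F.H91

theorem mainQ : MainQ := asm (cln H65.rr H15.src)

theorem DecidesIn.mono {α Γ : Type} {enc : α → List Γ} {L : α → Prop} {T T' : α → ℝ}
    (h : DecidesIn enc L T) (hT : ∀ a, T a ≤ T' a) : DecidesIn enc L T' := by
  obtain ⟨M, hM⟩ := h
  refine ⟨M, fun a => ?_⟩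
  obtain ⟨t, ht, hr⟩ := hM a
  exact ⟨t, ht.trans (hT a), hr⟩

/-- under the exponential time hypothesis: linear exponent -/
theorem mainE (hE : ∃ ε : ℝ, 0 < ε ∧ ∀ C : ℝ, ¬ DecidesIn encCNF CNF3.Sat
      (fun φ => C * 2 ^ (ε * ((φ.n : ℝ) + φ.clauses.length)))) :
    ∃ δ : ℝ, 0 < δ ∧ ∃ k₀ : ℕ, ∀ k ≥ k₀, ∀ C : ℝ,
      ¬ DecidesIn encGraph (HasIndep k) (fun x => C * ((x.N : ℝ) + 1) ^ (δ * k)) := by
  obtain ⟨ε, hε, h⟩ := hE
  obtain ⟨k₀, hk⟩ := mainQ (ε / 360) (by positivity)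
  refine ⟨ε / 360, by positivity, k₀, fun k hk' C hC => ?_⟩
  obtain ⟨C', hC'⟩ := hk k hk' ⟨C, hC⟩
  refine h C' ?_
  have e : 360 * (ε / 360) = ε := by ring
  rw [e] at hC'
  exact hC'

/-- under the exponential time hypothesis: no `f(k) N^(o(k))` -/
theorem mainO (hE : ∃ ε : ℝ, 0 < ε ∧ ∀ C : ℝ, ¬ DecidesIn encCNF CNF3.Sat
      (fun φ => C * 2 ^ (ε * ((φ.n : ℝ) + φ.clauses.length))))
    (f g : ℕ → ℝ) (hg : Filter.Tendsto (fun k : ℕ => g k / k) Filter.atTop (nhds 0)) :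
    ¬ ∀ k, DecidesIn encGraph (HasIndep k) (fun x => f k * ((x.N : ℝ) + 1) ^ g k) := by
  intro hall
  obtain ⟨δ, hδ, k₀, hk⟩ := mainE hE
  have h1 : ∀ᶠ k : ℕ in Filter.atTop, g k / k < δ := hg.eventually_lt_const hδ
  obtain ⟨k₁, hk₁⟩ := Filter.eventually_atTop.1 h1
  obtain ⟨k, hkk⟩ : ∃ k : ℕ, k = max (max k₀ k₁) 1 := ⟨_, rfl⟩
  have a0 : k₀ ≤ k := by omega
  have a1 : k₁ ≤ k := by omega
  have a2 : 1 ≤ k := by omega
  have a3 : (0 : ℝ) < k := by exact_mod_cast a2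
  have h2 : g k ≤ δ * k := by
    have := hk₁ k a1
    rw [div_lt_iff₀ a3] at this
    exact this.le
  refine hk k a0 |f k| (DecidesIn.mono (hall k) fun x => ?_)
  have h3 : (1 : ℝ) ≤ (x.N : ℝ) + 1 := by
    have : (0 : ℝ) ≤ x.N := Nat.cast_nonneg _
    linarith
  have h4 : (0 : ℝ) ≤ ((x.N : ℝ) + 1) ^ g k := by positivity
  calc f k * ((x.N : ℝ) + 1) ^ g k ≤ |f k| * ((x.N : ℝ) + 1) ^ g k :=
        mul_le_mul_of_nonneg_right (le_abs_self _) h4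
    _ ≤ |f k| * ((x.N : ℝ) + 1) ^ (δ * k) :=
        mul_le_mul_of_nonneg_left (Real.rpow_le_rpow_of_exponent_le h3 h2) (abs_nonneg _)

end Pool.Agent.C4F.H91
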