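import Pool.Agent.Helper91_C4F.Fin
import Pool.Agent.Helper91_C4F.Itr
import Pool.Agent.Helper77_C4F.CHN
import Pool.Agent.Helper86_C4F.EQB
import Pool.Agent.Helper90_C4F.GIR
import Pool.Agent.Helper86_C4F.GLU
import Pool.Agent.Helper27_C4F.C4
import Pool.Agent.Helper24_C4F.IND
import Pool.Agent.Helper66_C4F.NUM
import Pool.Agent.Helper65_C4F.RR
import Pool.Agent.Helper15_C4F.SRC
import Pool.Agent.Helper66_C4F.CPT
import Pool.Agent.Helper65_C4F.CRL
import Pool.Agent.Helper66_C4F.CRD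
import Pool.Agent.Helper66_C4F.CMP
import Pool.Agent.Helper66_C4F.INC
import Pool.Agent.Helper60_C4F.CPY
import Pool.Agent.Helper90_C4F.SND
import Pool.Agent.Helper60_C4F.KIT
import Pool.Agent.Helper77_C4F.SUB
import Pool.Agent.Helper32_C4F.Tnm
import Pool.Agent.Helper75_C4F.T
import Pool.Agent.Helper76_C4F.TAD
import Pool.Agent.Helper69_C4F.Fld
import Pool.Agent.Helper69_C4F.A2
import Pool.Agent.Helper34_C4F.SAT
import Pool.Agent.Helper89_C4F.A1
import Pool.Agent.Helper49_C4F.PGR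
import Pool.Agent.Helper32_C4F.Com
import Pool.Agent.Helper56_C4F.Num

/-!
# Assembly of the squad C4F
-/

namespace Pool.Agent.C4F.H91

theorem redOf (cln : ClnStmt) : RedStmt :=
  red (H27.c4 H77.chn H90.gir H86.glu) H24.ind
    (H66.cmp (H66.crd (H66.cpt H15.src) (H65.crl H65.rr H15.src) cln) H66.num)
    (H90S.snd H86.eqb H66.inc H60.cpy)

theorem kitTad : TadStmt :=
  have K : Kit := H60.kit
  have tnm := H32.tnm K
  have tlk := H32.tlk K tnm
  have trt := H75.trt K tnm tlk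
  have ton := H75.ton K tnm
  have tvs := H75.tvs K tnm tlk trt ton
  have tbw := H75.tbw K tnm
  have tgt := H75.tgt K tnm tvs tbw
  have tbd := H75.tbd K tnm tvs tbw
  H76.tad K tnm ton tgt tbd

theorem asm (cln : ClnStmt) : MainQ :=
  finQ (redOf cln) (H69.bgn H77.sub (H75.mtx H60.kit kitTad)) H34.enc H34.sat (H89.a1 H60.kit)
    (H69.a2 H91.itr) H49.pgr H49.pgb H32.com H56.brt H56.an1 H56.an2 H56.an3

end Pool.Agent.C4F.H91
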