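import Pool.Agent.C4F.StmtsP
import Pool.Agent.C4F.StmtsM

/-!
# Squad C4F, row FIN: assembly of the main theorem
-/

set_option autoImplicit false

namespace Pool.Agent.C4F.H91

open Pool.Agent.C4F Turing

theorem runs_mono {Γ Δ : Type} {M : TM2ComputableAux Γ Δ} {w : List Γ} {v : List Δ} {t t' : ℕ}
    (h : Runs M w v t) (ht : t ≤ t') : Runs M w v t' := by
  obtain ⟨⟨h1, h2⟩⟩ := h
  exact ⟨⟨h1, h2.trans ht⟩⟩

theorem length_en (b : ℕ) : (en b).length = (b + 1) * 2 ^ b := by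
  unfold en
  rw [List.length_flatMap]
  simp only [List.length_append, List.length_map, List.length_range, List.length_singleton]
  rw [List.map_const', List.sum_replicate, List.length_range, smul_eq_mul, mul_comm]

theorem length_tab (φ : CNF3) : (tab φ).length = 3 * φ.clauses.length * φ.n := by
  unfold tab
  rw [List.length_flatMap]
  simp only [List.length_flatMap, List.length_map, List.length_range, List.map_const',
    List.sum_replicate, List.length_finRange, smul_eq_mul]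
  ring

theorem length_encLit {n : ℕ} (l : Fin n × Bool) : (encLit l).length ≤ n := by
  unfold encLit
  rw [List.length_cons, List.length_replicate]
  exact l.1.isLt

theorem length_encCNF (φ : CNF3) :
    (encCNF φ).length ≤ φ.n + 1 + 3 * φ.clauses.length * (φ.n + 1) := by
  unfold encCNF
  rw [List.length_append, List.length_replicate, List.length_cons]
  have h : ∀ L : List (Fin 3 → Fin φ.n × Bool),
      (L.flatMap fun c => encLit (c 0) ++ (encLit (c 1) ++ encLit (c 2))).length ≤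
        3 * L.length * (φ.n + 1) := by
    intro L
    induction L with
    | nil => simp
    | cons c L ih =>
      rw [List.flatMap_cons, List.length_append, List.length_cons]
      simp only [List.length_append] at ih ⊢
      have h0 := length_encLit (c 0)
      have h1 := length_encLit (c 1)
      have h2 := length_encLit (c 2)
      nlinarith
  have := h φ.clauses
  omega

theorem length_zs (w : Fin 6 → List Lt) (a b : ℕ) : (zs w a b).length =
    (w 0).length + (w 1).length + (w 2).length + (w 3).length + (w 4).length + a + 6 +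
      (b + 1) * 2 ^ b := by
  unfold zs
  simp only [List.length_append, List.length_cons, List.length_replicate, length_en]
  ring

theorem eval_mono (P : Polynomial ℕ) {a b : ℕ} (h : a ≤ b) : P.eval a ≤ P.eval b :=
  Pool.Agent.Helper32_Poly.poly_eval_mono P h

/-- quantitative form of the main theorem -/
def MainQ : Prop :=
  ∀ δ : ℝ, 0 < δ → ∃ k₀ : ℕ, ∀ k ≥ k₀,
    (∃ C : ℝ, DecidesIn encGraph (HasIndep k) (fun x => C * ((x.N : ℝ) + 1) ^ (δ * k))) →
    ∃ C : ℝ, DecidesIn encCNF CNF3.Sat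
      (fun φ => C * 2 ^ (360 * δ * ((φ.n : ℝ) + φ.clauses.length)))

theorem finQ (h1 : RedStmt) (h2 : BgnStmt) (h3 : EncStmt) (h4 : SatStmt) (h5 : A1Stmt)
    (h6 : A2Stmt) (h7 : PgrStmt) (h8 : PgbStmt) (h9 : ComStmt) (h10 : BrtStmt) (h11 : An1Stmt)
    (h12 : An2Stmt) (h13 : An3Stmt) : MainQ := by
  classical
  intro δ hδ
  obtain ⟨ε, hεδ⟩ : ∃ ε : ℝ, ε = 360 * δ := ⟨_, rfl⟩
  have hε : 0 < ε := by rw [hεδ]; positivity
  have hδε : δ = ε / 360 := by rw [hεδ]; ring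
  rw [← hεδ, hδε]
  obtain ⟨M2, P2, hM2⟩ := h6
  obtain ⟨FB, hFB, hB⟩ := h2
  obtain ⟨M3, P3, hM3⟩ := h8 FB hFB
  obtain ⟨K0, hK0⟩ := h11 (P2 + P3) ε hε
  obtain ⟨k0, hk0⟩ := h10 (K0 + 1)
  refine ⟨k0, fun k hk => ?_⟩
  rintro ⟨C4, M4, hM4⟩
  obtain ⟨q, hq1, hq3, hq10, hqK, hq120⟩ := hk0 k hk
  obtain ⟨FA, hFA, hA⟩ := h5 q k
  obtain ⟨M1, P1, hM1⟩ := h7 FA hFA
  obtain ⟨C1, hC1, e1⟩ := hK0 q (by omega) k
  obtain ⟨C2, hC2, e2⟩ := h12 ε hε q k (by omega) hq120 C4
  obtain ⟨C3, hC3, e3⟩ := h13 P1 ε hε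
  obtain ⟨C5, hC5, e5⟩ := h13 Polynomial.X ε hε
  obtain ⟨M12, c1, hM12⟩ := h9 _ _ _ M1 M2
  obtain ⟨M123, c2, hM123⟩ := h9 _ _ _ M12 M3
  obtain ⟨M, c3, hM⟩ := h9 _ _ _ M123 M4
  refine ⟨c3 * (c2 * (c1 * (C3 + C1 + C5 + 1) + C1 + C5 + 1) + C2 + C5 + 1), M, fun φ => ?_⟩
  obtain ⟨s1, s2, s3, s4, s5, s6, s7⟩ := h4 q k φ
  set w := wd q k φ with hw
  set m := φ.clauses.length with hm
  have hW : (dat w).W = wid q m := by
    unfold Dat.W Dat.kp Dat.h wid
    rw [s2, s5]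
  have hOk : (dat w).Ok := ⟨by rw [s2]; exact hq1, by rw [s2]; exact hq3,
    by rw [s2, s3]; exact hq10, by rw [s4, s5]; exact s6⟩
  obtain ⟨hf, hiff⟩ := h1 _ hOk
  have hw5 : w 5 = en (wid q m) := rfl
  set x : C4FreeGraph := ⟨(dat w).k * 2 ^ (dat w).W, (dat w).gr, hf⟩ with hx
  -- the runs
  have r1 := hM1 (encCNF φ)
  rw [hA φ] at r1
  have r2 := hM2 w (wid q m) s1
  have r3 := hM3 (zs w 0 (wid q m))
  rw [hB w (wid q m) s1 hw5, h3 w hf (by rw [hW]; exact hw5)] at r3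
  obtain ⟨t4, ht4, r4⟩ := hM4 x
  have hdec : [decide (HasIndep k x)] = [decide φ.Sat] := by
    have : HasIndep k x ↔ φ.Sat := by
      rw [← s7, ← hiff]
      constructor
      · rintro ⟨s, hs1, hs2⟩
        exact ⟨s, hs1.trans s3.symm, hs2⟩
      · rintro ⟨s, hs1, hs2⟩
        exact ⟨s, hs1.trans s3, hs2⟩
    rw [decide_eq_decide.mpr this]
  rw [hdec] at r4
  have r12 := hM12 _ _ _ _ _ r1 r2
  have r123 := hM123 _ _ _ _ _ r12 r3
  have r := hM _ _ _ _ _ r123 r4
  refine ⟨_, ?_, r⟩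
  -- estimates
  set E : ℝ := 2 ^ (ε * ((φ.n : ℝ) + m)) with hE
  have hE1 : 1 ≤ E := by
    rw [hE]
    exact Real.one_le_rpow (by norm_num) (by positivity)
  have hL := length_encCNF φ
  have l1 : ((P1.eval (encCNF φ).length : ℕ) : ℝ) ≤ C3 * E :=
    le_trans (by exact_mod_cast eval_mono P1 hL) (e3 φ.n m)
  have l5 : ((encCNF φ).length : ℝ) ≤ C5 * E := by
    have := e5 φ.n m
    rw [Polynomial.eval_X] at this
    exact le_trans (by exact_mod_cast hL) this
  have hz : (zs w 0 (wid q m)).length ≤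
      q + k + φ.n + m + 3 * m * φ.n + 7 + (wid q m + 1) * 2 ^ wid q m := by
    rw [length_zs]
    have a0 : (w 0).length = q := s2
    have a1 : (w 1).length = k := s3
    have a2 : (w 2).length = φ.n := s4
    have a3 : (w 3).length = m := s5
    have a4 : (w 4).length = 3 * m * φ.n := length_tab φ
    rw [a0, a1, a2, a3, a4]
    omega
  have l23 : ((P2.eval (zs w 0 (wid q m)).length : ℕ) : ℝ) +
      ((P3.eval (zs w 0 (wid q m)).length : ℕ) : ℝ) ≤ C1 * E := by
    have := e1 φ.n m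
    rw [Polynomial.eval_add] at this
    refine le_trans ?_ this
    rw [← Nat.cast_add]
    exact_mod_cast Nat.add_le_add (eval_mono P2 hz) (eval_mono P3 hz)
  have l4 : (t4 : ℝ) ≤ C2 * E := by
    have hxN : (x.N : ℝ) = ((k * 2 ^ wid q m : ℕ) : ℝ) := by
      rw [hx]
      show (((dat w).k * 2 ^ (dat w).W : ℕ) : ℝ) = _
      rw [hW, s3]
    have h := e2 m
    have ht4' : (t4 : ℝ) ≤ C4 * ((x.N : ℝ) + 1) ^ (ε / 360 * k) := ht4
    rw [hxN] at ht4'
    refine ht4'.trans (h.trans ?_)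
    refine mul_le_mul_of_nonneg_left ?_ hC2
    rw [hE]
    apply Real.rpow_le_rpow_of_exponent_le (by norm_num)
    apply mul_le_mul_of_nonneg_left _ hε.le
    have : (0 : ℝ) ≤ φ.n := by positivity
    linarith
  have p2 : (0 : ℝ) ≤ ((P2.eval (zs w 0 (wid q m)).length : ℕ) : ℝ) := Nat.cast_nonneg _
  have p3 : (0 : ℝ) ≤ ((P3.eval (zs w 0 (wid q m)).length : ℕ) : ℝ) := Nat.cast_nonneg _
  push_cast
  have k1 : (c1 : ℝ) * ((P1.eval (encCNF φ).length : ℕ) +
      (P2.eval (zs w 0 (wid q m)).length : ℕ) + (encCNF φ).length + 1) ≤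
      c1 * (C3 + C1 + C5 + 1) * E := by
    rw [mul_assoc]
    apply mul_le_mul_of_nonneg_left _ (Nat.cast_nonneg _)
    linarith
  have k2 : (c2 : ℝ) * (c1 * ((P1.eval (encCNF φ).length : ℕ) +
      (P2.eval (zs w 0 (wid q m)).length : ℕ) + (encCNF φ).length + 1) +
      (P3.eval (zs w 0 (wid q m)).length : ℕ) + (encCNF φ).length + 1) ≤
      c2 * (c1 * (C3 + C1 + C5 + 1) + C1 + C5 + 1) * E := by
    rw [mul_assoc]
    apply mul_le_mul_of_nonneg_left _ (Nat.cast_nonneg _)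
    linarith
  calc (c3 : ℝ) * (c2 * (c1 * ((P1.eval (encCNF φ).length : ℕ) +
      (P2.eval (zs w 0 (wid q m)).length : ℕ) + (encCNF φ).length + 1) +
      (P3.eval (zs w 0 (wid q m)).length : ℕ) + (encCNF φ).length + 1) + t4 +
      (encCNF φ).length + 1)
      ≤ c3 * ((c2 * (c1 * (C3 + C1 + C5 + 1) + C1 + C5 + 1) + C2 + C5 + 1) * E) := by
        apply mul_le_mul_of_nonneg_left _ (Nat.cast_nonneg _)
        linarith
    _ = c3 * (c2 * (c1 * (C3 + C1 + C5 + 1) + C1 + C5 + 1) + C2 + C5 + 1) * E := by ring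

theorem fin (h1 : RedStmt) (h2 : BgnStmt) (h3 : EncStmt) (h4 : SatStmt) (h5 : A1Stmt)
    (h6 : A2Stmt) (h7 : PgrStmt) (h8 : PgbStmt) (h9 : ComStmt) (h10 : BrtStmt) (h11 : An1Stmt)
    (h12 : An2Stmt) (h13 : An3Stmt) : MainStmt := by
  intro hyp ε hε
  obtain ⟨k0, hk0⟩ := finQ h1 h2 h3 h4 h5 h6 h7 h8 h9 h10 h11 h12 h13 (ε / 360) (by positivity)
  obtain ⟨k, hk, hC⟩ := hyp (ε / 360) (by positivity) k0
  have h := hk0 k hk hC
  rwa [show 360 * (ε / 360) = ε by ring] at h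

end Pool.Agent.C4F.H91
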